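import Pool.Graph.R_pool_sql_team_seeded_64922ed1.X95T.F
import Pool.Graph.R_pool_sql_team_seeded_64922ed1.X95T.N
import Pool.Graph.R_pool_sql_team_seeded_64922ed1.X95T.V

/-!
The theorem `TangentLineUniform` of the library (`MP_821da1_nt`) with the condition on the bad
primes imposed only on the common prime factors of `y` and `b`.  The proof is the one of the
library.
-/

set_option autoImplicit false

open IntermediateField

namespace Pool.Agent.H51.TO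

theorem commonOdd (p k δ : ℕ) (hp3 : 3 ≤ p) (hodd : Odd p) (hk : 1 ≤ k) (hδ : 1 ≤ δ)
    (hkp : Nat.Coprime k p) :
    ∃ C : ℕ, ∀ S : Finset ℕ, ∃ c : ℕ, ∀ (F : MvPolynomial (Fin 2) ℤ) (D U V : Polynomial ℤ)
      (b : ℤ),
      (∀ s ∈ (F - MvPolynomial.X 1 ^ k + MvPolynomial.X 0 ^ (p * δ)).support,
        k * s 0 + (p * δ) * s 1 < (p * δ) * k) →
      MvPolynomial.aeval ![Polynomial.X, (0 : Polynomial ℤ)] F = - D ^ p →
      U * D + V * MvPolynomial.aeval ![Polynomial.X, (0 : Polynomial ℤ)]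
        (MvPolynomial.pderiv 1 F) = Polynomial.C b →
      (∀ a : ℤ, a ≠ 0 → Irreducible (MvPolynomial.map (Int.castRingHom ℚ)
        (MvPolynomial.aeval ![MvPolynomial.X 0, MvPolynomial.C a * MvPolynomial.X 1 ^ p] F :
          MvPolynomial (Fin 2) ℤ))) →
      ∀ x y : ℤ, MvPolynomial.eval ![x, y] F = 0 →
        (∀ q : ℕ, q.Prime → (q : ℤ) ∣ y → (q : ℤ) ∣ b → q ∈ S) →
        max x.natAbs y.natAbs ≤ (c * ∑ m ∈ F.support, (F.coeff m).natAbs) ^ C := by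
  obtain ⟨C₀, c₀, hR⟩ := Pool.Agent.Results.MP_821da1_nt.RepulsionAllCurves.result.2
  obtain ⟨d, hd⟩ : ∃ d : ℕ, d = p * δ + p * k := ⟨_, rfl⟩
  obtain ⟨A, hA⟩ : ∃ A : ℕ, A = C₀ d := ⟨_, rfl⟩
  -- the constant of a field
  have hca : ∀ a : ℤ, ∃ t : ℕ, ∀ θ : ℝ, θ ^ p = (a : ℝ) ^ k → c₀ d ℚ⟮θ⟯ ≤ t := by
    intro a
    by_cases h : ∃ θ₀ : ℝ, θ₀ ^ p = (a : ℝ) ^ k
    · obtain ⟨θ₀, hθ₀⟩ := h
      refine ⟨c₀ d ℚ⟮θ₀⟯, fun θ hθ => ?_⟩
      have : θ = θ₀ := hodd.strictMono_pow.injective (hθ.trans hθ₀.symm)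
      rw [this]
    · exact ⟨0, fun θ hθ => absurd ⟨θ, hθ⟩ h⟩
  choose t ht using hca
  refine ⟨A * p + A + 1, ?_⟩
  intro S
  obtain ⟨M, hM⟩ : ∃ M : ℕ, M = ∏ q ∈ S, (q + 1) ^ p := ⟨_, rfl⟩
  have hM1 : 1 ≤ M := by
    rw [hM]
    exact Nat.succ_le_of_lt (Finset.prod_pos (fun q _ => pow_pos (Nat.succ_pos q) p))
  obtain ⟨T, hT⟩ : ∃ T : ℕ, T = A + ∑ a ∈ Finset.Icc (-(M : ℤ)) M, t a := ⟨_, rfl⟩
  have hT1 : ∀ a : ℤ, a.natAbs ≤ M → t a ≤ T := by
    intro a ha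
    rw [hT]
    refine le_trans ?_ (Nat.le_add_left _ _)
    apply Finset.single_le_sum (f := t) (fun _ _ => Nat.zero_le _)
    rw [Finset.mem_Icc]
    omega
  refine ⟨M * ((T + 1) * M ^ k), ?_⟩
  intro F D U V b hF h1 h2 hi x y h0 hbS
  have hlenF : Pool.Agent.Results.MP_821da1_nt.RepulsionAllCurves.len F = ∑ m ∈ F.support, (F.coeff m).natAbs := rfl
  rw [← hlenF]
  obtain ⟨e, u, v, w, h3, h4⟩ := Pool.Agent.X95T.split F D U V b h1 h2 x y h0
  obtain ⟨a, z, ha0, haM, hyz⟩ : ∃ a z : ℤ, a ≠ 0 ∧ a.natAbs ≤ M ∧ y = a * z ^ p := by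
    by_cases hy : y = 0
    · refine ⟨1, 0, one_ne_zero, hM1, ?_⟩
      rw [hy, zero_pow (by omega), mul_zero]
    · rw [hM]
      apply Pool.Agent.X95T.free_part' (by omega) S y hy
      intro q hq hqS
      by_cases hqy : (q : ℤ) ∣ y
      · refine Pool.Agent.X95T.val_dvd' y e (-1) _ u v w b (by rw [h3]; ring) h4 hy q hq
          (fun h => hqS (hbS q hq hqy h)) ?_
        intro h
        rw [dvd_neg] at h
        have h8 : q ∣ 1 := by exact_mod_cast h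
        exact hq.one_lt.ne' (Nat.dvd_one.1 h8)
      · have hqn : ¬ q ∣ y.natAbs := fun h => hqy (Int.natCast_dvd.2 h)
        rw [Nat.factorization_eq_zero_of_not_dvd hqn]
        exact dvd_zero _
  have hirr : Irreducible (MvPolynomial.map (Int.castRingHom ℚ) (Pool.Agent.X95T.sub a p F)) :=
    hi a ha0
  have hsupp := Pool.Agent.X95T.supp F hF
  have hF0 : F ≠ 0 := by
    rintro rfl
    rw [map_zero, map_zero] at hirr
    exact hirr.ne_zero rfl
  have hlen1 : 1 ≤ Pool.Agent.Results.MP_821da1_nt.RepulsionAllCurves.len F := Pool.Agent.Y910.G.len_pos hF0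
  have hlen : Pool.Agent.Results.MP_821da1_nt.RepulsionAllCurves.len (Pool.Agent.X95T.sub a p F) ≤
      M ^ k * Pool.Agent.Results.MP_821da1_nt.RepulsionAllCurves.len F :=
    (Pool.Agent.X95T.len_sub a ha0 p k F (fun s hs => (hsupp s hs).2)).trans
      (Nat.mul_le_mul_right _ (Nat.pow_le_pow_left haM _))
  have hdeg := Pool.Agent.X95T.deg_sub a p k (p * δ) F hsupp
  rw [← hd] at hdeg
  have hev : MvPolynomial.eval ![x, z] (Pool.Agent.X95T.sub a p F) = 0 := by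
    have h5 := Pool.Agent.X95T.aeval_sub a p F x z
    rw [MvPolynomial.aeval_eq_eval, MvPolynomial.aeval_eq_eval] at h5
    rw [h5]
    simp only [Int.cast_id]
    rw [← hyz]
    exact h0
  have hmain : max x.natAbs z.natAbs ≤
      ((T + 1) * Pool.Agent.Results.MP_821da1_nt.RepulsionAllCurves.len (Pool.Agent.X95T.sub a p F)) ^ A := by
    rcases hR d _ x z hdeg hirr hev with h | ⟨g, hg, η, hη, hk3⟩
    · rw [← hA] at h
      refine h.trans (Nat.pow_le_pow_left (Nat.mul_le_mul_right _ ?_) _)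
      rw [hT]
      omega
    · obtain ⟨θ, hθ, hθη, hθq⟩ := Pool.Agent.X95T.key (by omega) hk hδ hkp a ha0 F hF hirr g hg η hη
      have h5 := hk3 ℚ⟮θ⟯ (by rw [adjoin_simple_le_iff]; exact hθη)
        (Pool.Agent.X95T.deg_odd hodd (a ^ k) θ (by rw [hθ]; push_cast; rfl) hθq)
      rw [← hA] at h5
      refine h5.trans (Nat.pow_le_pow_left (Nat.mul_le_mul_right _ ?_) _)
      exact (ht a θ hθ).trans ((hT1 a haM).trans (Nat.le_succ _))
  obtain ⟨B, hB⟩ : ∃ B : ℕ, B = (T + 1) * M ^ k * Pool.Agent.Results.MP_821da1_nt.RepulsionAllCurves.len F := ⟨_, rfl⟩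
  have hB1 : 1 ≤ B := by
    rw [hB]
    exact Nat.mul_pos (Nat.mul_pos (Nat.succ_pos _) (pow_pos hM1 _)) hlen1
  have h5 : max x.natAbs z.natAbs ≤ B ^ A := by
    refine hmain.trans (Nat.pow_le_pow_left ?_ _)
    rw [hB, mul_assoc]
    exact Nat.mul_le_mul_left _ hlen
  have h6 : M * ((T + 1) * M ^ k) * Pool.Agent.Results.MP_821da1_nt.RepulsionAllCurves.len F = M * B := by
    rw [hB, mul_assoc]
  rw [h6]
  have h7 : 1 ≤ M * B := Nat.mul_pos hM1 hB1
  have h8 : B ≤ M * B := Nat.le_mul_of_pos_left _ hM1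
  apply max_le
  · calc x.natAbs ≤ B ^ A := (le_max_left _ _).trans h5
      _ ≤ (M * B) ^ A := Nat.pow_le_pow_left h8 _
      _ ≤ _ := Nat.pow_le_pow_right h7 (by omega)
  · have h9 : y.natAbs = a.natAbs * z.natAbs ^ p := by
      rw [hyz, Int.natAbs_mul, Int.natAbs_pow]
    rw [h9]
    calc a.natAbs * z.natAbs ^ p ≤ M * (B ^ A) ^ p :=
          Nat.mul_le_mul haM (Nat.pow_le_pow_left ((le_max_right _ _).trans h5) _)
      _ ≤ M * (M * B) ^ (A * p) := by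
          rw [← pow_mul]
          exact Nat.mul_le_mul_left _ (Nat.pow_le_pow_left h8 _)
      _ ≤ (M * B) * (M * B) ^ (A * p) := Nat.mul_le_mul_right _ (Nat.le_mul_of_pos_right _ hB1)
      _ = (M * B) ^ (A * p + 1) := by rw [pow_succ]; ring
      _ ≤ _ := Nat.pow_le_pow_right h7 (by omega)

end Pool.Agent.H51.TO
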